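import Pool.Agent.Lib.H70L.Def

/-!
# H75X, file Cl: the closure of a graph in the generic rigidity matroid

`cl G` is the family of the maximal tight sets of a maximal sparse subgraph of `G`.
-/

set_option autoImplicit false
set_option linter.unusedSectionVars false

namespace H75X

open Finset H98P H98M H70L

variable {V : Type*} [Fintype V] [DecidableEq V]

/-- `X` spans exactly `2 |X| - 3` edges of `H`. -/
def Tight (H : Finset (Sym2 V)) (X : Finset V) : Prop :=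
  2 ≤ X.card ∧ (H ∩ X.sym2).card + 3 = 2 * X.card

open Classical in
/-- The maximal tight sets. -/
noncomputable def fam (H : Finset (Sym2 V)) : Finset (Finset V) :=
  univ.filter fun X => Tight H X ∧ ∀ Y, Tight H Y → X ⊆ Y → Y = X

theorem mem_fam {H : Finset (Sym2 V)} {X : Finset V} :
    X ∈ fam H ↔ Tight H X ∧ ∀ Y, Tight H Y → X ⊆ Y → Y = X := by
  classical
  exact ⟨fun h => (mem_filter.1 h).2, fun h => mem_filter.2 ⟨mem_univ _, h⟩⟩

theorem supermod (H : Finset (Sym2 V)) (X Y : Finset V) :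
    (H ∩ X.sym2).card + (H ∩ Y.sym2).card ≤
      (H ∩ (X ∪ Y).sym2).card + (H ∩ (X ∩ Y).sym2).card := by
  rw [← card_union_add_card_inter]
  refine Nat.add_le_add (card_le_card fun e he => ?_) (card_le_card fun e he => ?_)
  · rw [mem_union, mem_inter, mem_inter, mem_sym2_iff, mem_sym2_iff] at he
    rw [mem_inter, mem_sym2_iff]
    rcases he with h | h
    · exact ⟨h.1, fun a ha => mem_union_left _ (h.2 a ha)⟩
    · exact ⟨h.1, fun a ha => mem_union_right _ (h.2 a ha)⟩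
  · rw [mem_inter, mem_inter, mem_inter, mem_sym2_iff, mem_sym2_iff] at he
    rw [mem_inter, mem_sym2_iff]
    exact ⟨he.1.1, fun a ha => mem_inter.2 ⟨he.1.2 a ha, he.2.2 a ha⟩⟩

theorem tight_union {H : Finset (Sym2 V)} (hH : Sparse H) {X Y : Finset V} (hX : Tight H X)
    (hY : Tight H Y) (h : 2 ≤ (X ∩ Y).card) : Tight H (X ∪ Y) := by
  have h1 := supermod H X Y
  have h2 := card_union_add_card_inter X Y
  have h3 := hH (X ∩ Y) h
  have h0 : 2 ≤ (X ∪ Y).card := hX.1.trans (card_le_card subset_union_left)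
  have h4 := hH (X ∪ Y) h0
  have h5 := hX.2
  have h6 := hY.2
  exact ⟨h0, by omega⟩

theorem exists_fam {H : Finset (Sym2 V)} {X : Finset V} (hX : Tight H X) :
    ∃ Y ∈ fam H, X ⊆ Y := by
  classical
  obtain ⟨Y, hY, hmax⟩ := exists_max_image (univ.filter fun Y => Tight H Y ∧ X ⊆ Y) card
    ⟨X, by rw [mem_filter]; exact ⟨mem_univ _, hX, Subset.rfl⟩⟩
  rw [mem_filter] at hY
  refine ⟨Y, mem_fam.2 ⟨hY.2.1, fun Z hZ hYZ => ?_⟩, hY.2.2⟩
  have := hmax Z (by rw [mem_filter]; exact ⟨mem_univ _, hZ, hY.2.2.trans hYZ⟩)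
  exact (eq_of_subset_of_card_le hYZ this).symm

theorem fam_pair {H : Finset (Sym2 V)} (hH : Sparse H) {X Y : Finset V} (hX : X ∈ fam H)
    (hY : Y ∈ fam H) (h : 2 ≤ (X ∩ Y).card) : X = Y := by
  rw [mem_fam] at hX hY
  have h1 := tight_union hH hX.1 hY.1 h
  rw [← hX.2 _ h1 subset_union_left]
  exact hY.2 _ h1 subset_union_right

theorem tight_pair {H : Finset (Sym2 V)} (hH : Sparse H) {u v : V} (h : s(u, v) ∈ H)
    (huv : u ≠ v) : Tight H {u, v} := by
  have hc : ({u, v} : Finset V).card = 2 := card_pair huv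
  have h1 := hH {u, v} hc.ge
  have h2 : 0 < (H ∩ ({u, v} : Finset V).sym2).card :=
    card_pos.2 ⟨s(u, v), mem_inter.2 ⟨h, by rw [mk_mem_sym2_iff]; simp⟩⟩
  exact ⟨hc.ge, by omega⟩

theorem ne_of_LW {u v : V} (h : s(u, v) ∈ LW (univ : Finset V)) : u ≠ v := by
  unfold LW at h
  rw [mem_filter] at h
  intro e
  exact h.2 (by simpa using e)

theorem mem_HG {F : Finset (Finset V)} {u v : V} :
    s(u, v) ∈ HG F ↔ u ≠ v ∧ ∃ X ∈ F, u ∈ X ∧ v ∈ X := by
  unfold HG
  rw [mem_filter]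
  constructor
  · rintro ⟨h1, X, hX, h2⟩
    exact ⟨ne_of_LW h1, X, hX, mk_mem_sym2_iff.1 h2⟩
  · rintro ⟨h1, X, hX, h2⟩
    exact ⟨H30F.mem_LW (mem_univ _) (mem_univ _) h1, X, hX, mk_mem_sym2_iff.2 h2⟩

theorem two_le_inter {X Y : Finset V} {u v : V} (huv : u ≠ v) (h1 : u ∈ X) (h2 : v ∈ X)
    (h3 : u ∈ Y) (h4 : v ∈ Y) : 2 ≤ (X ∩ Y).card := by
  rw [← card_pair huv]
  refine card_le_card fun w hw => ?_
  rw [mem_insert, mem_singleton] at hw
  rcases hw with rfl | rfl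
  · exact mem_inter.2 ⟨h1, h3⟩
  · exact mem_inter.2 ⟨h2, h4⟩

theorem sub_HG {H : Finset (Sym2 V)} (hH : Sparse H) (hL : H ⊆ LW univ) : H ⊆ HG (fam H) := by
  intro e he
  induction e using Sym2.ind with
  | _ u v =>
    have huv := ne_of_LW (hL he)
    obtain ⟨Y, hY, hXY⟩ := exists_fam (tight_pair hH he huv)
    exact mem_HG.2 ⟨huv, Y, hY, hXY (by simp), hXY (by simp)⟩

theorem cost_fam {H : Finset (Sym2 V)} (hH : Sparse H) (hL : H ⊆ LW univ) :
    cost (fam H) = H.card := by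
  have h1 : H = (fam H).biUnion fun X => H ∩ X.sym2 := by
    refine Subset.antisymm (fun e he => ?_) fun e he => ?_
    · induction e using Sym2.ind with
      | _ u v =>
        obtain ⟨_, X, hX, hu, hv⟩ := mem_HG.1 (sub_HG hH hL he)
        exact mem_biUnion.2 ⟨X, hX, mem_inter.2 ⟨he, mk_mem_sym2_iff.2 ⟨hu, hv⟩⟩⟩
    · obtain ⟨X, _, hX⟩ := mem_biUnion.1 he
      exact (mem_inter.1 hX).1
  have h2 : ((fam H).biUnion fun X => H ∩ X.sym2).card = ∑ X ∈ fam H, (H ∩ X.sym2).card := by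
    refine card_biUnion fun X hX Y hY hXY => ?_
    rw [Function.onFun, disjoint_left]
    intro e he he'
    induction e using Sym2.ind with
    | _ u v =>
      rw [mem_inter, mk_mem_sym2_iff] at he he'
      exact hXY (fam_pair hH hX hY
        (two_le_inter (ne_of_LW (hL he.1)) he.2.1 he.2.2 he'.2.1 he'.2.2))
  rw [← h1] at h2
  rw [h2]
  refine sum_congr rfl fun X hX => ?_
  have := (mem_fam.1 hX).1
  have h3 := this.1
  have h4 := this.2
  omega

theorem le_cost {J : Finset (Sym2 V)} (hJ : Sparse J) {F : Finset (Finset V)}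
    (hF : ∀ X ∈ F, 2 ≤ X.card) (h : J ⊆ HG F) : J.card ≤ cost F := by
  have h1 : J ⊆ F.biUnion fun X => J ∩ X.sym2 := by
    intro e he
    induction e using Sym2.ind with
    | _ u v =>
      obtain ⟨_, X, hX, hu, hv⟩ := mem_HG.1 (h he)
      exact mem_biUnion.2 ⟨X, hX, mem_inter.2 ⟨he, mk_mem_sym2_iff.2 ⟨hu, hv⟩⟩⟩
  refine (card_le_card h1).trans (card_biUnion_le.trans (sum_le_sum fun X hX => ?_))
  have := hJ X (hF X hX)
  omega

theorem tight_of_not {H : Finset (Sym2 V)} (hH : Sparse H) {u v : V}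
    (h : ¬ Sparse (insert s(u, v) H)) : ∃ X, Tight H X ∧ u ∈ X ∧ v ∈ X := by
  unfold Sparse at h
  push Not at h
  obtain ⟨X, hX, hlt⟩ := h
  have h1 := hH X hX
  by_cases hm : s(u, v) ∈ X.sym2
  · refine ⟨X, ⟨hX, ?_⟩, mk_mem_sym2_iff.1 hm⟩
    have h2 : (insert s(u, v) H ∩ X.sym2).card ≤ (H ∩ X.sym2).card + 1 := by
      rw [insert_inter_of_mem hm]
      exact card_insert_le _ _
    omega
  · rw [insert_inter_of_notMem hm] at hlt
    omega

/-- `I` is a maximal sparse subset of `G`. -/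
def MS (I G : Finset (Sym2 V)) : Prop :=
  I ⊆ G ∧ Sparse I ∧ ∀ e ∈ G, e ∉ I → ¬ Sparse (insert e I)

theorem exists_MS {I₀ G : Finset (Sym2 V)} (h0 : I₀ ⊆ G) (hS : Sparse I₀) :
    ∃ I, I₀ ⊆ I ∧ MS I G := by
  classical
  obtain ⟨I, hI, hmax⟩ := exists_max_image (G.powerset.filter fun I => Sparse I ∧ I₀ ⊆ I) card
    ⟨I₀, by rw [mem_filter, mem_powerset]; exact ⟨h0, hS, Subset.rfl⟩⟩
  rw [mem_filter, mem_powerset] at hI
  refine ⟨I, hI.2.2, hI.1, hI.2.1, fun e he heI hs => ?_⟩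
  have := hmax (insert e I) (by
    rw [mem_filter, mem_powerset]
    exact ⟨insert_subset he hI.1, hs, hI.2.2.trans (subset_insert _ _)⟩)
  rw [card_insert_of_notMem heI] at this
  omega

theorem MS.sub {I G : Finset (Sym2 V)} (h : MS I G) (hG : G ⊆ LW univ) : G ⊆ HG (fam I) := by
  intro e he
  by_cases heI : e ∈ I
  · exact sub_HG h.2.1 (h.1.trans hG) heI
  · induction e using Sym2.ind with
    | _ u v =>
      obtain ⟨X, hX, hu, hv⟩ := tight_of_not h.2.1 (h.2.2 _ he heI)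
      obtain ⟨Y, hY, hXY⟩ := exists_fam hX
      exact mem_HG.2 ⟨ne_of_LW (hG he), Y, hY, hXY hu, hXY hv⟩

theorem two_le_fam {H : Finset (Sym2 V)} : ∀ X ∈ fam H, 2 ≤ X.card := fun _ hX =>
  (mem_fam.1 hX).1.1

theorem MS.card_le {I I' G : Finset (Sym2 V)} (h : MS I G) (h' : MS I' G) (hG : G ⊆ LW univ) :
    I'.card ≤ I.card := by
  rw [← cost_fam h.2.1 (h.1.trans hG)]
  exact le_cost h'.2.1 two_le_fam (h'.1.trans (h.sub hG))

theorem MS.HG_le {I I' G : Finset (Sym2 V)} (h : MS I G) (h' : MS I' G) (hG : G ⊆ LW univ) :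
    HG (fam I) ⊆ HG (fam I') := by
  intro e he
  by_contra hcon
  have heI : e ∉ I' := fun h1 => hcon (h'.sub hG (h'.1 h1))
  have hs : Sparse (insert e I') := by
    by_contra hn
    induction e using Sym2.ind with
    | _ u v =>
      obtain ⟨X, hX, hu, hv⟩ := tight_of_not h'.2.1 hn
      obtain ⟨Y, hY, hXY⟩ := exists_fam hX
      exact hcon (mem_HG.2 ⟨(mem_HG.1 he).1, Y, hY, hXY hu, hXY hv⟩)
  have h1 := le_cost hs two_le_fam (insert_subset he (h'.1.trans (h.sub hG)))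
  rw [cost_fam h.2.1 (h.1.trans hG), card_insert_of_notMem heI] at h1
  have := h'.card_le h hG
  omega

theorem fam_mono {I I' : Finset (Sym2 V)} (hI' : Sparse I') (h : I ⊆ I') :
    HG (fam I) ⊆ HG (fam I') := by
  intro e he
  induction e using Sym2.ind with
  | _ u v =>
    obtain ⟨huv, X, hX, hu, hv⟩ := mem_HG.1 he
    have hX1 := (mem_fam.1 hX).1
    have h1 := hI' X hX1.1
    have h2 : (I ∩ X.sym2).card ≤ (I' ∩ X.sym2).card :=
      card_le_card (inter_subset_inter h Subset.rfl)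
    have h3 := hX1.2
    obtain ⟨Y, hY, hXY⟩ := exists_fam (H := I') (X := X) ⟨hX1.1, by omega⟩
    exact mem_HG.2 ⟨huv, Y, hY, hXY hu, hXY hv⟩

/-- THE CLOSURE. -/
theorem exists_closure : ∃ (cl : Finset (Sym2 V) → Finset (Finset V)) (r : Finset (Sym2 V) → ℕ),
    (∀ G, G ⊆ LW univ → (∀ X ∈ cl G, 2 ≤ X.card) ∧ G ⊆ HG (cl G) ∧ cost (cl G) = r G ∧
      ∃ H ⊆ G, Sparse H ∧ H.card = r G) ∧
    (∀ G G', G ⊆ G' → G' ⊆ LW univ → HG (cl G) ⊆ HG (cl G') ∧
      (HG (cl G) = HG (cl G') ∨ r G < r G')) := by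
  have h0 : Sparse (∅ : Finset (Sym2 V)) := by
    intro X hX
    rw [empty_inter, card_empty]
    omega
  have hex : ∀ G : Finset (Sym2 V), ∃ I, MS I G := fun G => by
    obtain ⟨I, _, hI⟩ := exists_MS (empty_subset G) h0
    exact ⟨I, hI⟩
  choose I hI using hex
  refine ⟨fun G => fam (I G), fun G => (I G).card, fun G hG => ⟨two_le_fam, (hI G).sub hG,
    cost_fam (hI G).2.1 ((hI G).1.trans hG), I G, (hI G).1, (hI G).2.1, rfl⟩, fun G G' h hG' => ?_⟩
  obtain ⟨J, hIJ, hJ⟩ := exists_MS ((hI G).1.trans h) (hI G).2.1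
  have h1 : HG (fam (I G)) ⊆ HG (fam J) := fam_mono hJ.2.1 hIJ
  have h2 : HG (fam J) ⊆ HG (fam (I G')) := hJ.HG_le (hI G') hG'
  have h3 : HG (fam (I G')) ⊆ HG (fam J) := (hI G').HG_le hJ hG'
  refine ⟨h1.trans h2, ?_⟩
  have h4 : J.card = (I G').card := le_antisymm ((hI G').card_le hJ hG') (hJ.card_le (hI G') hG')
  have h5 : (I G).card ≤ J.card := card_le_card hIJ
  rcases Nat.lt_or_ge (I G).card (I G').card with h6 | h6
  · exact Or.inr h6
  · left
    have h7 : I G = J := eq_of_subset_of_card_le hIJ (by omega)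
    have h8 : HG (fam (I G)) = HG (fam (I G')) := by
      rw [h7]
      exact Subset.antisymm h2 h3
    exact h8

end H75X
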