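import Pool.Agent.Lib.H75X.Cl
import Pool.Agent.Lib.H70N.N

/-!
# H75X, file Hyp: the graph part of Theorem D' for unions of cliques

`G = HG F` is the union of the cliques on the members of `F`, with the cost `2 |S| - 3` for `S ∈ F`:
cycles (mod 2) on sets with at most `k` elements bound in the complex `{M : M lies in a disconnected
set}` if `k + cost F + 4 ≤ 2 n`. The proof is the one of `H70N.ack_N` with other costs.
-/

set_option autoImplicit false
set_option linter.unusedSectionVars false

namespace H75X

open Finset H98P H98Z H98M H63F H30F H30D H70H H70L H70N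

variable {V : Type*} [Fintype V] [DecidableEq V]

/-- The cost of a clique with `a` vertices in `X`, `b` in `Y`, none in `Z`. -/
def cc (a b : ℕ) : ℕ := if a = 0 then 0 else if b = 0 then 2 * a - 3 else 2 * a + b - 2

theorem cc_mono {a b b' : ℕ} (h : b' ≤ b) : cc a b' ≤ cc a b := by
  unfold cc
  split_ifs <;> omega

theorem cc_del {a b : ℕ} : cc (a - 1) b ≤ cc a b := by
  unfold cc
  split_ifs <;> omega

theorem cc_del' {a b : ℕ} (h : 1 ≤ a) (h' : 2 ≤ a ∨ 1 ≤ b) : cc (a - 1) b < cc a b := by
  unfold cc
  split_ifs <;> omega

theorem cc_move {a b : ℕ} (h : 1 ≤ a) : cc (a - 1) (b + 1) ≤ cc a b := by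
  unfold cc
  split_ifs <;> omega

theorem cc_move' {a b : ℕ} (h : 1 ≤ a) (h' : 1 ≤ b) : cc (a - 1) (b + 1) < cc a b := by
  unfold cc
  split_ifs <;> omega

theorem cc_link {a b : ℕ} (h : 1 ≤ a) : (a - 1 - 1) + ((a - 1) + b) ≤ cc a b := by
  unfold cc
  split_ifs <;> omega

/-- The cost of the clique `S`. -/
def cR (X Y Z S : Finset V) : ℕ :=
  if (S ∩ Z).Nonempty then (S ∩ X).card - 1 else cc (S ∩ X).card (S ∩ Y).card

/-- The cost of the claim on `R(X, Y, Z)`. -/
def mF (F : Finset (Finset V)) (X Y Z : Finset V) : ℕ :=
  ∑ S ∈ F, cR X Y Z S + (sZ (HG F) X Z).card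

theorem card_in {S X : Finset V} {x : V} (hS : x ∈ S) (hX : x ∈ X) :
    (S ∩ X.erase x).card = (S ∩ X).card - 1 := by
  rw [inter_erase, card_erase_of_mem (mem_inter.2 ⟨hS, hX⟩)]

theorem card_out {S X : Finset V} {x : V} (hS : x ∉ S) :
    S ∩ X.erase x = S ∩ X := by
  rw [inter_erase, erase_eq_of_notMem fun h => hS (mem_inter.1 h).1]

theorem one_le {S X : Finset V} {x : V} (hS : x ∈ S) (hX : x ∈ X) : 1 ≤ (S ∩ X).card :=
  card_pos.2 ⟨x, mem_inter.2 ⟨hS, hX⟩⟩

theorem cR_del {X Y Z S : Finset V} {x : V} (hX : x ∈ X) :
    cR (X.erase x) Y Z S ≤ cR X Y Z S := by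
  unfold cR
  by_cases h : (S ∩ Z).Nonempty
  · rw [if_pos h, if_pos h]
    have := card_le_card (inter_subset_inter (Subset.refl S) (erase_subset x X))
    omega
  · rw [if_neg h, if_neg h]
    by_cases hS : x ∈ S
    · rw [card_in hS hX]
      exact cc_del
    · rw [card_out hS]

/-- Deletion in claim R. -/
theorem del_R {F : Finset (Finset V)} {X Y Z : Finset V} {x v : V} (hxX : x ∈ X)
    (hxY : x ∉ Y) (hxs : x ∈ sZ (HG F) X Z) (hyz : ∀ y ∈ Y, ∀ z ∈ Z, s(z, y) ∉ HG F)
    (hYZ : Disjoint Y Z) (hv : v ∈ X.erase x ∨ v ∈ Y) (hxv : s(x, v) ∈ HG F) :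
    mF F (X.erase x) Y Z + 2 ≤ mF F X Y Z := by
  have a2 := sZ_erase hxs
  have a3 : ∑ S ∈ F, cR (X.erase x) Y Z S < ∑ S ∈ F, cR X Y Z S := by
    refine sum_lt_sum (fun S _ => cR_del hxX) ?_
    obtain ⟨hne, S, hS, hxS, hvS⟩ := mem_HG.1 hxv
    refine ⟨S, hS, ?_⟩
    unfold cR
    by_cases h : (S ∩ Z).Nonempty
    · rw [if_pos h, if_pos h, card_in hxS hxX]
      obtain ⟨z, hz⟩ := h
      rw [mem_inter] at hz
      have hvX : v ∈ X.erase x := by
        rcases hv with h1 | h1
        · exact h1
        · refine absurd (mem_HG.2 ⟨?_, S, hS, hz.1, hvS⟩) (hyz v h1 z hz.2)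
          rintro rfl
          exact disjoint_left.1 hYZ h1 hz.2
      have := two_le_inter hne hxS hvS hxX (mem_of_mem_erase hvX)
      omega
    · rw [if_neg h, if_neg h, card_in hxS hxX]
      refine cc_del' (one_le hxS hxX) ?_
      rcases hv with h1 | h1
      · exact Or.inl (two_le_inter hne hxS hvS hxX (mem_of_mem_erase h1))
      · exact Or.inr (one_le hvS h1)
  unfold mF
  omega

/-- The link of `x`, in both claims. -/
theorem link_F {F : Finset (Finset V)} {X Y Z T : Finset V} {x : V} (hxX : x ∈ X)
    (hT : T = Y.filter fun a => s(x, a) ∈ HG F) (hXZ : Disjoint X Z) (hYZ : Disjoint Y Z)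
    (hyz : ∀ y ∈ Y, ∀ z ∈ Z, s(z, y) ∉ HG F) :
    mF F (X.erase x) (Y \ T) (insert x Z) + T.card + (if x ∈ sZ (HG F) X Z then 1 else 0) ≤
      mF F X Y Z := by
  classical
  obtain ⟨P, hP⟩ : ∃ P, P = F.filter fun S => x ∈ S ∧ ¬ (S ∩ Z).Nonempty := ⟨_, rfl⟩
  have h1 : ∑ S ∈ F, cR (X.erase x) (Y \ T) (insert x Z) S +
      ∑ S ∈ P, (((S ∩ X).card - 1) + (S ∩ Y).card) ≤ ∑ S ∈ F, cR X Y Z S := by
    rw [hP, sum_filter, ← sum_add_distrib]
    refine sum_le_sum fun S hS => ?_
    by_cases hx : x ∈ S
    · have hn : (S ∩ insert x Z).Nonempty := ⟨x, mem_inter.2 ⟨hx, mem_insert_self _ _⟩⟩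
      by_cases hz : (S ∩ Z).Nonempty
      · rw [if_neg fun h => h.2 hz]
        unfold cR
        rw [if_pos hn, if_pos hz, card_in hx hxX]
        omega
      · rw [if_pos ⟨hx, hz⟩]
        unfold cR
        rw [if_pos hn, if_neg hz, card_in hx hxX]
        exact cc_link (one_le hx hxX)
    · rw [if_neg fun h => hx h.1]
      have e1 : S ∩ insert x Z = S ∩ Z := by
        rw [inter_insert_of_notMem hx]
      unfold cR
      rw [e1, card_out hx]
      by_cases hz : (S ∩ Z).Nonempty
      · rw [if_pos hz, if_pos hz]
        omega
      · rw [if_neg hz, if_neg hz]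
        exact cc_mono (card_le_card (inter_subset_inter Subset.rfl sdiff_subset))
  have h2 : T.card ≤ ∑ S ∈ P, (S ∩ Y).card := by
    refine (card_le_card (t := P.biUnion fun S => S ∩ Y) fun y hy => ?_).trans card_biUnion_le
    rw [hT, mem_filter] at hy
    obtain ⟨hne, S, hS, hxS, hyS⟩ := mem_HG.1 hy.2
    refine mem_biUnion.2 ⟨S, ?_, mem_inter.2 ⟨hyS, hy.1⟩⟩
    rw [hP, mem_filter]
    refine ⟨hS, hxS, ?_⟩
    rintro ⟨z, hz⟩
    rw [mem_inter] at hz
    refine hyz y hy.1 z hz.2 (mem_HG.2 ⟨?_, S, hS, hz.1, hyS⟩)
    rintro rfl
    exact disjoint_left.1 hYZ hy.1 hz.2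
  have h3 : (sZ (HG F) (X.erase x) (insert x Z)).card ≤ ((sZ (HG F) X Z).erase x).card +
      ∑ S ∈ P, ((S ∩ X).card - 1) := by
    refine (card_le_card (t := (sZ (HG F) X Z).erase x ∪ P.biUnion fun S => (S ∩ X).erase x)
      fun v hv => ?_).trans ((card_union_le _ _).trans (Nat.add_le_add_left
        (card_biUnion_le.trans (sum_le_sum fun S hS => ?_)) _))
    · simp only [sZ, mem_filter, mem_erase, mem_insert] at hv
      obtain ⟨⟨hvx, hvX⟩, z, hz, hzv⟩ := hv
      by_cases hvs : v ∈ sZ (HG F) X Z
      · exact mem_union_left _ (mem_erase.2 ⟨hvx, hvs⟩)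
      · have hzx : z = x := by
          rcases hz with h | h
          · exact h
          · exact absurd (mem_filter.2 ⟨hvX, z, h, hzv⟩) hvs
        subst hzx
        obtain ⟨hne, S, hS, hxS, hvS⟩ := mem_HG.1 hzv
        refine mem_union_right _ (mem_biUnion.2 ⟨S, ?_, mem_erase.2 ⟨hvx, mem_inter.2 ⟨hvS, hvX⟩⟩⟩)
        rw [hP, mem_filter]
        refine ⟨hS, hxS, ?_⟩
        rintro ⟨z', hz'⟩
        rw [mem_inter] at hz'
        refine hvs (mem_filter.2 ⟨hvX, z', hz'.2, mem_HG.2 ⟨?_, S, hS, hz'.1, hvS⟩⟩)
        rintro rfl
        exact disjoint_left.1 hXZ hvX hz'.2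
    · rw [hP, mem_filter] at hS
      rw [card_erase_of_mem (mem_inter.2 ⟨hS.2.1, hxX⟩)]
  have h4 : ((sZ (HG F) X Z).erase x).card + (if x ∈ sZ (HG F) X Z then 1 else 0) =
      (sZ (HG F) X Z).card := by
    by_cases h : x ∈ sZ (HG F) X Z
    · rw [if_pos h, card_erase_add_one h]
    · rw [if_neg h, erase_eq_of_notMem h, add_zero]
  rw [sum_add_distrib] at h1
  unfold mF
  omega

/-- The cost in claim N. -/
def mN (F : Finset (Finset V)) (X Y : Finset V) : ℕ :=
  ∑ S ∈ F, cc (S ∩ X).card (S ∩ Y).card

theorem mF_empty {F : Finset (Finset V)} {X Y : Finset V} : mF F X Y ∅ = mN F X Y := by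
  unfold mF mN cR sZ
  simp

theorem del_N {F : Finset (Finset V)} {X Y : Finset V} {x y : V} (hxX : x ∈ X) (hxY : x ∉ Y)
    (hy : y ∈ Y) (hxy : s(x, y) ∈ HG F) : mN F (X.erase x) (insert x Y) + 1 ≤ mN F X Y := by
  unfold mN
  refine Nat.succ_le_of_lt (sum_lt_sum (fun S _ => ?_) ?_)
  · by_cases hS : x ∈ S
    · rw [card_in hS hxX, inter_insert_of_mem hS,
        card_insert_of_notMem fun h => hxY (mem_inter.1 h).2]
      exact cc_move (one_le hS hxX)
    · rw [card_out hS, inter_insert_of_notMem hS]
  · obtain ⟨hne, S, hS, hxS, hyS⟩ := mem_HG.1 hxy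
    refine ⟨S, hS, ?_⟩
    rw [card_in hxS hxX, inter_insert_of_mem hxS,
      card_insert_of_notMem fun h => hxY (mem_inter.1 h).2]
    exact cc_move' (one_le hxS hxX) (one_le hyS hy)

/-- Claim R: `Z` connected, no edges between `Y` and `Z`. -/
theorem ack_RF {F : Finset (Finset V)} {G : Finset (Sym2 V)} (hG : G = HG F) (n : ℕ) : ∀ (X Y Z : Finset V) (k : ℕ), X.card ≤ n →
    Disjoint X Y → Disjoint X Z → Disjoint Y Z → Z.Nonempty → ¬ Disc Z G → Y.Nonempty →
    X.Nonempty → (∀ y ∈ Y, ∀ z ∈ Z, s(z, y) ∉ G) → k + 2 + mF F X Y Z ≤ 2 * X.card + Y.card →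
    ACk k (Rx G (X ∪ Y ∪ Z) X Z) := by
  induction n with
  | zero =>
    intro X Y Z k hc _ _ _ _ _ _ hX _ _
    exact absurd (card_pos.2 hX) (by omega)
  | succ n ih =>
    intro X Y Z k hc hXY hXZ hYZ hZ hn hY hX hyz hk
    by_cases hx : ∃ x ∈ X, ∃ z ∈ Z, s(z, x) ∈ G
    · obtain ⟨x, hxX, z, hz, hzx⟩ := hx
      have hxY : x ∉ Y := fun h => disjoint_left.1 hXY hxX h
      have hxZ : x ∉ Z := fun h => disjoint_left.1 hXZ hxX h
      have hxs : x ∈ sZ G X Z := mem_filter.2 ⟨hxX, z, hz, hzx⟩
      have hxs' : x ∈ sZ (HG F) X Z := hG ▸ hxs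
      have hyz' : ∀ y ∈ Y, ∀ z ∈ Z, s(z, y) ∉ HG F := hG ▸ hyz
      have a4 : (X.erase x).card + 1 = X.card := card_erase_add_one hxX
      have aL := link_F (F := F) (T := Y.filter fun a => s(x, a) ∈ HG F) hxX rfl hXZ hYZ hyz'
      rw [if_pos hxs'] at aL
      by_cases h0 : nb G x (X.erase x) + nb G x Y = 0
      · refine ack_of_ac k (H63H.ac_cone (a := x) ?_)
        rintro s ⟨h1, W, h2, h3, h4⟩
        obtain ⟨C, D, hD, hCD, hW, hZC, h⟩ := disc_part hZ hn (subset_union_right.trans h2) h4
        have hxD : x ∉ D := fun hd => h z (hZC hz) x hd hzx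
        refine ⟨insert_subset hxX h1, insert x W, ?_, insert_subset ?_ h3, insert x C, D,
          insert_nonempty x C, hD, disjoint_insert_left.2 ⟨hxD, hCD⟩, ?_, ?_⟩
        · rw [insert_union]
          exact insert_subset_insert x h2
        · exact mem_union_left _ (mem_union_left _ hxX)
        · rw [insert_union, hW]
        · intro u hu d hd
          rcases mem_insert.1 hu with hu | hu
          · subst hu
            have h5 : d ∈ X ∪ Y ∪ Z := h3 (hW ▸ mem_union_right _ hd)
            have h6 : d ∉ Z := fun h7 => disjoint_left.1 hCD (hZC h7) hd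
            have h7 : d ≠ u := fun h8 => hxD (h8 ▸ hd)
            rcases mem_union.1 h5 with h5 | h5
            · rcases mem_union.1 h5 with h5 | h5
              · exact nb_zero (A := X.erase u) (by omega) d (mem_erase.2 ⟨h7, h5⟩)
              · exact nb_zero (A := Y) (by omega) d h5
            · exact absurd h5 h6
          · exact h u hu d hd
      · have aD : mF F (X.erase x) Y Z + 2 ≤ mF F X Y Z := by
          have h5 : ∃ v, (v ∈ X.erase x ∨ v ∈ Y) ∧ s(x, v) ∈ G := by
            by_contra hcon
            push Not at hcon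
            refine h0 ?_
            have h6 : nb G x (X.erase x) = 0 := by
              unfold nb
              rw [card_eq_zero, filter_eq_empty_iff]
              exact fun v hv => hcon v (Or.inl hv)
            have h7 : nb G x Y = 0 := by
              unfold nb
              rw [card_eq_zero, filter_eq_empty_iff]
              exact fun v hv => hcon v (Or.inr hv)
            omega
          obtain ⟨v, hv, hxv⟩ := h5
          exact del_R hxX hxY hxs' hyz' hYZ hv (hG ▸ hxv)
        by_cases h2 : (X.erase x).Nonempty
        · refine ack_vertex rx_dn x ?_ ?_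
          · -- deletion
            refine ack_congr (K := Rx G (X.erase x ∪ Y ∪ Z) (X.erase x) Z) (fun s => ?_)
              (ih (X.erase x) Y Z k (by omega) (disjoint_of_subset_left (erase_subset x X) hXY)
                (disjoint_of_subset_left (erase_subset x X) hXZ) hYZ hZ hn hY h2 hyz
                (by omega))
            rw [rx_del, rx_drop (U := X ∪ Y ∪ Z) (T := {x}) hZ hn (by
              intro t ht
              rw [mem_singleton] at ht
              subst ht
              exact ⟨hxZ, z, hz, hzx⟩) (by
              intro t ht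
              rw [mem_singleton] at ht
              subst ht
              exact notMem_erase t X)]
            have e : (X ∪ Y ∪ Z) \ {x} = X.erase x ∪ Y ∪ Z := by
              ext v
              simp only [mem_sdiff, mem_union, mem_singleton, mem_erase]
              constructor
              · tauto
              · rintro ((h5 | h5) | h5)
                · tauto
                · exact ⟨Or.inl (Or.inr h5), fun h6 => hxY (h6 ▸ h5)⟩
                · exact ⟨Or.inr h5, fun h6 => hxZ (h6 ▸ h5)⟩
            rw [e]
          · -- link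
            intro l hl
            have hn' : ¬ Disc (insert x Z) G := by
              intro hdz
              obtain ⟨C, D, hD, hCD, hW, hZC, h⟩ := disc_part hZ hn (subset_insert x Z) hdz
              obtain ⟨d, hdd⟩ := hD
              have h1 : d ∈ insert x Z := by
                rw [← hW]
                exact mem_union_right _ hdd
              rcases mem_insert.1 h1 with h2 | h2
              · exact h z (hZC hz) d hdd (h2 ▸ hzx)
              · exact disjoint_left.1 hCD (hZC h2) hdd
            obtain ⟨T, hT⟩ : ∃ T, T = Y.filter fun a => s(x, a) ∈ G := ⟨_, rfl⟩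
            have hTY : T ⊆ Y := hT ▸ filter_subset _ _
            have hTc : T.card = nb G x Y := by rw [hT]; rfl
            have e : (X ∪ Y ∪ Z) \ T = X.erase x ∪ (Y \ T) ∪ insert x Z := by
              ext v
              simp only [mem_sdiff, mem_union, mem_insert, mem_erase]
              constructor
              · rintro ⟨(h5 | h5) | h5, h6⟩
                · by_cases h7 : v = x
                  · exact Or.inr (Or.inl h7)
                  · exact Or.inl (Or.inl ⟨h7, h5⟩)
                · exact Or.inl (Or.inr ⟨h5, h6⟩)
                · exact Or.inr (Or.inr h5)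
              · rintro ((h5 | h5) | (h5 | h5))
                · exact ⟨Or.inl (Or.inl h5.2), fun h6 => disjoint_left.1 hXY h5.2 (hTY h6)⟩
                · exact ⟨Or.inl (Or.inr h5.1), h5.2⟩
                · subst h5
                  exact ⟨Or.inl (Or.inl hxX), fun h6 => hxY (hTY h6)⟩
                · exact ⟨Or.inr h5, fun h6 => disjoint_left.1 hYZ (hTY h6) h5⟩
            have key : ∀ s, (Rx G (X ∪ Y ∪ Z) X Z (insert x s) ∧ x ∉ s) ↔
                Rx G (X.erase x ∪ (Y \ T) ∪ insert x Z) (X.erase x) (insert x Z) s := by
              intro s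
              rw [rx_link hxX, rx_drop (U := X ∪ Y ∪ Z) (T := T) (insert_nonempty x Z) hn' (by
                intro t ht
                refine ⟨fun h5 => ?_, x, mem_insert_self x Z, ?_⟩
                · rcases mem_insert.1 h5 with h6 | h6
                  · exact hxY (h6 ▸ hTY ht)
                  · exact disjoint_left.1 hYZ (hTY ht) h6
                · rw [hT] at ht
                  exact (mem_filter.1 ht).2) (by
                intro t ht h5
                exact disjoint_left.1 hXY (mem_of_mem_erase h5) (hTY ht)), e]
            have d1 : Disjoint (X.erase x) (insert x Z) :=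
              disjoint_insert_right.2 ⟨notMem_erase x X,
                disjoint_of_subset_left (erase_subset x X) hXZ⟩
            by_cases hYT : (Y \ T).Nonempty
            · refine ack_congr (fun s => (key s).symm)
                (ih (X.erase x) (Y \ T) (insert x Z) l (by omega)
                  (disjoint_of_subset_left (erase_subset x X)
                    (disjoint_of_subset_right sdiff_subset hXY)) d1 ?_ (insert_nonempty x Z) hn'
                  hYT h2 ?_ ?_)
              · exact disjoint_insert_right.2 ⟨fun h5 => hxY (mem_sdiff.1 h5).1,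
                  disjoint_of_subset_left sdiff_subset hYZ⟩
              · intro y hy v hv
                rcases mem_insert.1 hv with h5 | h5
                · subst h5
                  intro h6
                  exact (mem_sdiff.1 hy).2 (hT ▸ mem_filter.2 ⟨(mem_sdiff.1 hy).1, h6⟩)
                · exact hyz y (mem_sdiff.1 hy).1 v h5
              · have b3 : (Y \ T).card + T.card = Y.card := card_sdiff_add_card_eq_card hTY
                rw [← hG, ← hT] at aL
                omega
            · have h5 : Y \ T = ∅ := not_nonempty_iff_eq_empty.1 hYT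
              refine ack_of_ac l (ac_congr (fun s => (key s).symm) ?_)
              refine ac_congr (K := Rr G (X.erase x ∪ insert x Z) (insert x Z)) (fun s => ?_)
                (ac_R _ _ _ le_rfl subset_union_right (insert_nonempty x Z) hn')
              have h6 : (X.erase x ∪ insert x Z) \ insert x Z = X.erase x := by
                rw [union_sdiff_right]
                exact sdiff_eq_self_of_disjoint d1
              unfold Rr Rx
              rw [h6, h5, union_empty]
        · -- `X = {x}`
          have h3 : X.erase x = ∅ := not_nonempty_iff_eq_empty.1 h2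
          have h4 : nb G x Y < Y.card := by
            have h5 : (Y.filter fun a => s(x, a) ∈ HG F).card = nb G x Y := by
              rw [hG]
              rfl
            rw [h3, card_empty] at a4
            omega
          obtain ⟨y, hy, hxy⟩ := nb_lt h4
          have h5 : X = {x} := by
            rw [← insert_erase hxX, h3]
            rfl
          refine ack_of_ac k (ac_congr (K := fun s => s ⊆ X) (fun s => ?_) (ac_simplex hX))
          refine ⟨fun h6 => ⟨h6, insert y (insert x Z), ?_, ?_, {y}, insert x Z,
            singleton_nonempty y, insert_nonempty x Z, ?_, rfl, ?_⟩, fun h6 => h6.1⟩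
          · intro v hv
            rcases mem_union.1 hv with h7 | h7
            · have h8 := h6 h7
              rw [h5, mem_singleton] at h8
              subst h8
              exact mem_insert_of_mem (mem_insert_self v Z)
            · exact mem_insert_of_mem (mem_insert_of_mem h7)
          · intro v hv
            rcases mem_insert.1 hv with h7 | h7
            · subst h7
              exact mem_union_left _ (mem_union_right _ hy)
            · rcases mem_insert.1 h7 with h8 | h8
              · subst h8
                exact mem_union_left _ (mem_union_left _ hxX)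
              · exact mem_union_right _ h8
          · refine disjoint_singleton_left.2 fun h7 => ?_
            rcases mem_insert.1 h7 with h8 | h8
            · exact hxY (h8 ▸ hy)
            · exact disjoint_left.1 hYZ hy h8
          · intro u hu v hv
            rw [mem_singleton] at hu
            subst hu
            rw [Sym2.eq_swap]
            rcases mem_insert.1 hv with h8 | h8
            · subst h8
              exact hxy
            · exact hyz u hy v h8
    · push Not at hx
      refine ack_of_ac k (ac_congr (K := fun s => s ⊆ X) (fun s => ?_) (ac_simplex hX))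
      refine ⟨fun h6 => ⟨h6, X ∪ Y ∪ Z, ?_, Subset.rfl, X ∪ Y, Z,
        hX.mono subset_union_left, hZ, disjoint_union_left.2 ⟨hXZ, hYZ⟩, rfl, ?_⟩, fun h6 => h6.1⟩
      · exact union_subset_union (h6.trans subset_union_left) Subset.rfl
      · intro u hu v hv
        rw [Sym2.eq_swap]
        rcases mem_union.1 hu with h7 | h7
        · exact hx u h7 v hv
        · exact hyz u h7 v hv

/-- Claim N. -/
theorem ack_NF {F : Finset (Finset V)} {G : Finset (Sym2 V)} (hG : G = HG F) (n : ℕ) : ∀ (X Y : Finset V) (k : ℕ), X.card ≤ n →
    Disjoint X Y → Y.Nonempty → X.Nonempty →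
    k + 3 + mN F X Y ≤ 2 * X.card + Y.card →
    ACk k (Rx G (X ∪ Y) X ∅) := by
  induction n with
  | zero =>
    intro X Y k hc _ _ hX _
    exact absurd (card_pos.2 hX) (by omega)
  | succ n ih =>
    intro X Y k hc hXY hY hX hk
    by_cases hx : ∃ x ∈ X, ∃ y ∈ Y, s(x, y) ∈ G
    · obtain ⟨x, hxX, y, hy, hxy⟩ := hx
      have hxY : x ∉ Y := fun h => disjoint_left.1 hXY hxX h
      have a4 : (X.erase x).card + 1 = X.card := card_erase_add_one hxX
      have aL := link_F (F := F) (Z := ∅) (T := Y.filter fun a => s(x, a) ∈ HG F) hxX rfl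
        (disjoint_empty_right _) (disjoint_empty_right _)
        (fun _ _ z hz => absurd hz (notMem_empty z))
      rw [mF_empty, insert_empty_eq] at aL
      have aD := del_N hxX hxY hy (hG ▸ hxy)
      have a5 : 1 ≤ nb G x Y := card_pos.2 ⟨y, mem_filter.2 ⟨hy, hxy⟩⟩
      by_cases h2 : (X.erase x).Nonempty
      · refine ack_vertex rx_dn x ?_ ?_
        · -- deletion
          have e : X ∪ Y = X.erase x ∪ insert x Y := by
            ext v
            simp only [mem_union, mem_insert, mem_erase]
            constructor
            · rintro (h5 | h5)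
              · by_cases h7 : v = x
                · exact Or.inr (Or.inl h7)
                · exact Or.inl ⟨h7, h5⟩
              · exact Or.inr (Or.inr h5)
            · rintro (h5 | h5 | h5)
              · exact Or.inl h5.2
              · subst h5
                exact Or.inl hxX
              · exact Or.inr h5
          have c3 : (insert x Y).card = Y.card + 1 := card_insert_of_notMem hxY
          refine ack_congr (K := Rx G (X.erase x ∪ insert x Y) (X.erase x) ∅) (fun s => ?_)
            (ih (X.erase x) (insert x Y) k (by omega) ?_ (insert_nonempty x Y) h2 (by omega))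
          · rw [rx_del, e]
          · exact disjoint_insert_right.2 ⟨notMem_erase x X,
              disjoint_of_subset_left (erase_subset x X) hXY⟩
        · -- link
          intro l hl
          have hn' : ¬ Disc ({x} : Finset V) G := not_disc_singleton x
          obtain ⟨T, hT⟩ : ∃ T, T = Y.filter fun a => s(x, a) ∈ G := ⟨_, rfl⟩
          have hTY : T ⊆ Y := hT ▸ filter_subset _ _
          have hTc : T.card = nb G x Y := by rw [hT]; rfl
          have e : (X ∪ Y) \ T = X.erase x ∪ (Y \ T) ∪ {x} := by
            ext v
            simp only [mem_sdiff, mem_union, mem_singleton, mem_erase]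
            constructor
            · rintro ⟨h5 | h5, h6⟩
              · by_cases h7 : v = x
                · exact Or.inr h7
                · exact Or.inl (Or.inl ⟨h7, h5⟩)
              · exact Or.inl (Or.inr ⟨h5, h6⟩)
            · rintro ((h5 | h5) | h5)
              · exact ⟨Or.inl h5.2, fun h6 => disjoint_left.1 hXY h5.2 (hTY h6)⟩
              · exact ⟨Or.inr h5.1, h5.2⟩
              · subst h5
                exact ⟨Or.inl hxX, fun h6 => hxY (hTY h6)⟩
          have key : ∀ s, (Rx G (X ∪ Y) X ∅ (insert x s) ∧ x ∉ s) ↔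
              Rx G (X.erase x ∪ (Y \ T) ∪ {x}) (X.erase x) {x} s := by
            intro s
            rw [rx_link hxX, insert_empty_eq, rx_drop (U := X ∪ Y) (T := T)
              (singleton_nonempty x) hn' (by
              intro t ht
              refine ⟨fun h5 => ?_, x, mem_singleton_self x, ?_⟩
              · rw [mem_singleton] at h5
                exact hxY (h5 ▸ hTY ht)
              · rw [hT] at ht
                exact (mem_filter.1 ht).2) (by
              intro t ht h5
              exact disjoint_left.1 hXY (mem_of_mem_erase h5) (hTY ht)), e]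
          have d1 : Disjoint (X.erase x) ({x} : Finset V) :=
            disjoint_singleton_right.2 (notMem_erase x X)
          by_cases hYT : (Y \ T).Nonempty
          · refine ack_congr (fun s => (key s).symm)
              (ack_RF hG _ (X.erase x) (Y \ T) {x} l le_rfl
                (disjoint_of_subset_left (erase_subset x X)
                  (disjoint_of_subset_right sdiff_subset hXY)) d1 ?_ (singleton_nonempty x) hn'
                hYT h2 ?_ ?_)
            · exact disjoint_singleton_right.2 fun h5 => hxY (mem_sdiff.1 h5).1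
            · intro y' hy' v hv
              rw [mem_singleton] at hv
              subst hv
              intro h6
              exact (mem_sdiff.1 hy').2 (hT ▸ mem_filter.2 ⟨(mem_sdiff.1 hy').1, h6⟩)
            · have b3 : (Y \ T).card + T.card = Y.card := card_sdiff_add_card_eq_card hTY
              rw [← hG, ← hT] at aL
              omega
          · have h5 : Y \ T = ∅ := not_nonempty_iff_eq_empty.1 hYT
            refine ack_of_ac l (ac_congr (fun s => (key s).symm) ?_)
            refine ac_congr (K := Rr G (X.erase x ∪ {x}) {x}) (fun s => ?_)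
              (ac_R _ _ _ le_rfl subset_union_right (singleton_nonempty x) hn')
            have h6 : (X.erase x ∪ {x}) \ {x} = X.erase x := by
              rw [union_sdiff_right]
              exact sdiff_eq_self_of_disjoint d1
            unfold Rr Rx
            rw [h6, h5, union_empty]
      · -- `X = {x}`
        have h3 : X.erase x = ∅ := not_nonempty_iff_eq_empty.1 h2
        have h4 : nb G x Y < Y.card := by
          have h5 : (Y.filter fun a => s(x, a) ∈ HG F).card = nb G x Y := by
            rw [hG]
            rfl
          rw [h3, card_empty] at a4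
          omega
        obtain ⟨y', hy', hxy'⟩ := nb_lt h4
        have h5 : X = {x} := by
          rw [← insert_erase hxX, h3]
          rfl
        refine ack_of_ac k (ac_congr (K := fun s => s ⊆ X) (fun s => ?_) (ac_simplex hX))
        refine ⟨fun h6 => ⟨h6, {x} ∪ {y'}, ?_, ?_, {x}, {y'},
          singleton_nonempty x, singleton_nonempty y', ?_, rfl, ?_⟩, fun h6 => h6.1⟩
        · rw [union_empty, ← h5]
          exact h6.trans subset_union_left
        · exact union_subset_union (singleton_subset_iff.2 hxX) (singleton_subset_iff.2 hy')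
        · exact disjoint_singleton.2 fun h7 => hxY (h7 ▸ hy')
        · intro u hu v hv
          rw [mem_singleton] at hu hv
          subst hu
          subst hv
          exact hxy'
    · push Not at hx
      refine ack_of_ac k (ac_congr (K := fun s => s ⊆ X) (fun s => ?_) (ac_simplex hX))
      refine ⟨fun h6 => ⟨h6, X ∪ Y, ?_, Subset.rfl, X, Y, hX, hY, hXY, rfl, hx⟩, fun h6 => h6.1⟩
      rw [union_empty]
      exact h6.trans subset_union_left

/-- THEOREM D' FOR CLIQUES. -/
theorem ack_hyp (F : Finset (Finset V)) (h2 : 2 ≤ Fintype.card V) (_hF : ∀ X ∈ F, 2 ≤ X.card)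
    {k : ℕ} (hk : k + cost F + 4 ≤ 2 * Fintype.card V) :
    ACk k fun M : Finset V => ∃ W, M ⊆ W ∧ Disc W (HG F) := by
  obtain ⟨G, hG⟩ : ∃ G, G = HG F := ⟨_, rfl⟩
  rw [← hG]
  have hne : 0 < Fintype.card V := by omega
  obtain ⟨x⟩ := Fintype.card_pos_iff.1 hne
  have hc : (univ.erase x : Finset V).card + 1 = Fintype.card V := by
    rw [card_erase_add_one (mem_univ x), card_univ]
  have hX : (univ.erase x : Finset V).Nonempty := card_pos.1 (by omega)
  refine ack_vertex (fun s t hst ⟨W, h3, h4⟩ => ⟨W, hst.trans h3, h4⟩) x ?_ ?_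
  · refine ack_congr (K := Rx G (univ.erase x ∪ {x}) (univ.erase x) ∅) (fun s => ?_)
      (ack_NF hG _ (univ.erase x) {x} k le_rfl (disjoint_singleton_right.2 (notMem_erase x univ))
        (singleton_nonempty x) hX ?_)
    · unfold Rx
      rw [union_empty]
      constructor
      · rintro ⟨h3, W, h4, -, h5⟩
        exact ⟨⟨W, h4, h5⟩, fun h6 => notMem_erase x univ (h3 h6)⟩
      · rintro ⟨⟨W, h4, h5⟩, h6⟩
        refine ⟨subset_erase.2 ⟨subset_univ s, h6⟩, W, h4, fun v _ => ?_, h5⟩
        by_cases h7 : v = x
        · exact mem_union_right _ (mem_singleton.2 h7)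
        · exact mem_union_left _ (mem_erase.2 ⟨h7, mem_univ v⟩)
    · have c2 : mN F (univ.erase x) {x} ≤ cost F := by
        unfold mN cost
        refine sum_le_sum fun S _ => ?_
        by_cases hS : x ∈ S
        · rw [card_in hS (mem_univ x), inter_univ, inter_singleton_of_mem hS, card_singleton]
          have := card_pos.2 ⟨x, hS⟩
          unfold cc
          split_ifs <;> omega
        · rw [card_out hS, inter_univ, inter_singleton_of_notMem hS, card_empty]
          unfold cc
          split_ifs <;> omega
      rw [card_singleton]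
      omega
  · intro l _
    refine ack_of_ac l (ac_congr (K := Rr G univ {x}) (fun s => ?_)
      (ac_R _ univ {x} le_rfl (subset_univ _) (singleton_nonempty x) (not_disc_singleton x)))
    constructor
    · rintro ⟨h1, W, h2, -, h4⟩
      refine ⟨⟨W, ?_, h4⟩, fun hs => ?_⟩
      · intro v hv
        apply h2
        simp only [mem_union, mem_insert, mem_singleton] at hv ⊢
        tauto
      · exact (mem_sdiff.1 (h1 hs)).2 (mem_singleton_self x)
    · rintro ⟨⟨W, h1, h2⟩, hzs⟩
      refine ⟨fun v hv => mem_sdiff.2 ⟨mem_univ v, fun h3 => ?_⟩, W, ?_, subset_univ _, h2⟩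
      · rw [mem_singleton] at h3
        exact hzs (h3 ▸ hv)
      · intro v hv
        apply h1
        simp only [mem_union, mem_insert, mem_singleton] at hv ⊢
        tauto

end H75X
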